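import Pool.Agent.LRY.Stmts

/-!
# Squad LRY, row SPQ
-/

set_option autoImplicit false

namespace Pool.Agent.LRY.H38

open Pool.Agent.LRY Pool.Agent.LRG.E

variable {r₁ r₂ : ℕ}

/-- The imaginary part. -/
private noncomputable def spqIm (c : Fin r₂ → ℤ) : Ro r₁ r₂ → ℝ :=
  Sum.elim (fun _ => 0) fun q => (if q.2 then 1 else -1) * Real.sqrt (c q.1 : ℝ)

private theorem spq_re (a : Fa r₁ r₂ → ℤ) (c : Fin r₂ → ℤ) (o : Ro r₁ r₂) :
    (wr a c o).re = (a (fac o) : ℝ) := by
  rcases o with i | ⟨j, b⟩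
  · simp [wr, fac]
  · cases b <;> simp [wr, fac]

private theorem spq_im (a : Fa r₁ r₂ → ℤ) (c : Fin r₂ → ℤ) (o : Ro r₁ r₂) :
    (wr a c o).im = spqIm c o := by
  rcases o with i | ⟨j, b⟩
  · simp [wr, spqIm]
  · cases b <;> simp [wr, spqIm]

private theorem spq_ex_inj {k k' : Fa r₁ r₂} (h : ex k = ex k') : k = k' := by
  rcases k with i | j <;> rcases k' with i' | j'
  · have : (i : ℕ) = i' := h
    rw [Fin.ext this]
  · have h1 : (i : ℕ) = r₁ + j' := h
    have := i.2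
    omega
  · have h1 : r₁ + (j : ℕ) = i' := h
    have := i'.2
    omega
  · have h1 : r₁ + (j : ℕ) = r₁ + j' := h
    have h2 : (j : ℕ) = j' := by omega
    rw [Fin.ext h2]

private theorem spq_ex_lt (k : Fa r₁ r₂) : ex k + 1 ≤ r₁ + r₂ := by
  rcases k with i | j
  · have h : ex (Sum.inl i : Fa r₁ r₂) = i := rfl
    rw [h]
    have := i.2
    omega
  · have h : ex (Sum.inr j : Fa r₁ r₂) = r₁ + j := rfl
    rw [h]
    have := j.2
    omega

private theorem spq_sep {N : ℕ} {a : Fa r₁ r₂ → ℤ} {c : Fin r₂ → ℤ} (h : Par r₁ r₂ N a c)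
    {k k' : Fa r₁ r₂} (hlt : ex k < ex k') : 2 * (N : ℤ) ≤ a k' - a k := by
  have h1 := h.alo k'
  have h2 := h.ahi k
  have h3 : 3 * ((ex k : ℤ) + 1) * (N : ℤ) ≤ 3 * (ex k' : ℤ) * (N : ℤ) := by
    have h4 : (ex k : ℤ) + 1 ≤ (ex k' : ℤ) := by exact_mod_cast hlt
    have h5 : (0 : ℤ) ≤ (N : ℤ) := Int.natCast_nonneg _
    nlinarith
  nlinarith

private theorem spq_sqrt {N : ℕ} {a : Fa r₁ r₂ → ℤ} {c : Fin r₂ → ℤ} (h : Par r₁ r₂ N a c)
    (j : Fin r₂) : (N : ℝ) ≤ Real.sqrt (c j : ℝ) ∧ Real.sqrt (c j : ℝ) ≤ 2 * N := by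
  have h1 : ((N : ℝ)) ^ 2 ≤ (c j : ℝ) := by exact_mod_cast h.clo j
  have h2 : (c j : ℝ) ≤ 4 * (N : ℝ) ^ 2 := by exact_mod_cast h.chi j
  constructor
  · exact Real.le_sqrt_of_sq_le h1
  · refine Real.sqrt_le_iff.2 ⟨by positivity, ?_⟩
    nlinarith

private theorem spq_im_abs {N : ℕ} {a : Fa r₁ r₂ → ℤ} {c : Fin r₂ → ℤ} (h : Par r₁ r₂ N a c)
    (o : Ro r₁ r₂) : |spqIm c o| ≤ 2 * N := by
  rcases o with i | ⟨j, b⟩
  · simp [spqIm]
  · obtain ⟨h1, h2⟩ := spq_sqrt h j
    have h3 : (0 : ℝ) ≤ (N : ℝ) := Nat.cast_nonneg _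
    rw [abs_le]
    cases b
    · have e : spqIm c (Sum.inr (j, false) : Ro r₁ r₂) = -Real.sqrt (c j : ℝ) := by
        simp [spqIm]
      rw [e]
      constructor <;> linarith
    · have e : spqIm c (Sum.inr (j, true) : Ro r₁ r₂) = Real.sqrt (c j : ℝ) := by
        simp [spqIm]
      rw [e]
      constructor <;> linarith

/-- Row SPQ. -/
theorem spq : SpqStmt := by
  intro r₁ r₂ N a c h
  have hN : (0 : ℝ) ≤ (N : ℝ) := Nat.cast_nonneg _
  refine ⟨?_, ?_, ?_⟩
  · intro o o' hne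
    by_cases hf : fac o = fac o'
    · -- the same factor
      rcases o with i | ⟨j, b⟩ <;> rcases o' with i' | ⟨j', b'⟩
      · exact absurd (congrArg Sum.inl (Sum.inl.inj hf)) hne
      · exact absurd hf (by simp [fac])
      · exact absurd hf (by simp [fac])
      · have hj : j = j' := Sum.inr.inj hf
        subst hj
        obtain ⟨h1, h2⟩ := spq_sqrt h j
        have h3 := Complex.abs_im_le_norm
          (wr a c (Sum.inr (j, b) : Ro r₁ r₂) - wr a c (Sum.inr (j, b') : Ro r₁ r₂))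
        rw [Complex.sub_im, spq_im, spq_im] at h3
        have ef : spqIm c (Sum.inr (j, false) : Ro r₁ r₂) = -Real.sqrt (c j : ℝ) := by
          simp [spqIm]
        have et : spqIm c (Sum.inr (j, true) : Ro r₁ r₂) = Real.sqrt (c j : ℝ) := by
          simp [spqIm]
        refine le_trans ?_ h3
        cases b <;> cases b'
        · exact absurd rfl hne
        · rw [ef, et]
          refine le_trans ?_ (neg_le_abs _)
          linarith
        · rw [ef, et]
          refine le_trans ?_ (le_abs_self _)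
          linarith
        · exact absurd rfl hne
    · have h3 := Complex.abs_re_le_norm (wr a c o - wr a c o')
      rw [Complex.sub_re, spq_re, spq_re] at h3
      refine le_trans ?_ h3
      rcases lt_trichotomy (ex (fac o)) (ex (fac o')) with hlt | heq | hgt
      · have h4 : 2 * (N : ℝ) ≤ (a (fac o') : ℝ) - (a (fac o) : ℝ) := by
          exact_mod_cast spq_sep h hlt
        refine le_trans ?_ (neg_le_abs _)
        linarith
      · exact absurd (spq_ex_inj heq) hf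
      · have h4 : 2 * (N : ℝ) ≤ (a (fac o) : ℝ) - (a (fac o') : ℝ) := by
          exact_mod_cast spq_sep h hgt
        exact h4.trans (le_abs_self _)
  · intro o o'
    have hre : ∀ o : Ro r₁ r₂, 0 ≤ (a (fac o) : ℝ) ∧
        (a (fac o) : ℝ) ≤ (3 * ((r₁ : ℝ) + r₂)) * N := by
      intro o
      have h1 : 3 * ((ex (fac o) : ℕ) : ℝ) * (N : ℝ) ≤ (a (fac o) : ℝ) := by
        exact_mod_cast h.alo (fac o)
      have h2 : (a (fac o) : ℝ) ≤ (3 * ((ex (fac o) : ℕ) : ℝ) + 1) * (N : ℝ) := by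
        exact_mod_cast h.ahi (fac o)
      have h3 : ((ex (fac o) : ℕ) : ℝ) + 1 ≤ (r₁ : ℝ) + r₂ := by
        exact_mod_cast spq_ex_lt (fac o)
      have h4 : (0 : ℝ) ≤ ((ex (fac o) : ℕ) : ℝ) := Nat.cast_nonneg _
      constructor
      · refine le_trans ?_ h1
        positivity
      · refine h2.trans (mul_le_mul_of_nonneg_right ?_ hN)
        linarith
    have h1 := Complex.norm_le_abs_re_add_abs_im (wr a c o - wr a c o')
    rw [Complex.sub_re, Complex.sub_im, spq_re, spq_re, spq_im, spq_im] at h1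
    obtain ⟨h2, h3⟩ := hre o
    obtain ⟨h4, h5⟩ := hre o'
    have h6 : |(a (fac o) : ℝ) - (a (fac o') : ℝ)| ≤ (3 * ((r₁ : ℝ) + r₂)) * N := by
      rw [abs_le]
      constructor <;> linarith
    have h7 : |spqIm c o - spqIm c o'| ≤ 4 * N := by
      refine (abs_sub _ _).trans ?_
      have h8 := spq_im_abs h o
      have h9 := spq_im_abs h o'
      linarith
    calc ‖wr a c o - wr a c o'‖ ≤ _ := h1
      _ ≤ (3 * ((r₁ : ℝ) + r₂)) * N + 4 * N := add_le_add h6 h7
      _ = (3 * ((r₁ : ℝ) + r₂) + 4) * N := by ring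
  · intro o
    refine ⟨?_, ?_, ?_⟩
    · apply Complex.ext
      · rw [Complex.conj_re, spq_re, spq_re]
        rcases o with i | ⟨j, b⟩ <;> rfl
      · rw [Complex.conj_im, spq_im, spq_im]
        rcases o with i | ⟨j, b⟩
        · simp [spqIm, st]
        · cases b <;> simp [spqIm, st]
    · rcases o with i | ⟨j, b⟩
      · rfl
      · cases b <;> rfl
    · rcases o with i | ⟨j, b⟩ <;> rfl

end Pool.Agent.LRY.H38
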